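import Mathlib

/-!
# MP_305fdd_al, block NC: lattices of `PSL(2, ℝ)` are cocompact or free products of cyclic groups.
Definitions and interfaces (helper6). Paper: team-store file MP_305fdd_NC_h6.md.
-/

set_option autoImplicit false

namespace Pool.Agent.Nc

open Matrix

abbrev SL2 := SpecialLinearGroup (Fin 2) ℝ

/-- discrete (the form used in the frozen statement) -/
def Disc (Γ : Subgroup SL2) : Prop :=
  ∃ ε : ℝ, 0 < ε ∧ ∀ γ ∈ Γ,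
    (∀ i j, ‖(γ : Matrix (Fin 2) (Fin 2) ℝ) i j - (1 : Matrix (Fin 2) (Fin 2) ℝ) i j‖ < ε) → γ = 1

/-- finite covolume (the form used in the frozen statement) -/
def Covol (Γ : Subgroup SL2) : Prop :=
  ∃ F : Set SL2, (∀ g : SL2, ∃ γ ∈ Γ, ∃ f ∈ F, g = γ * f) ∧
    MeasureTheory.volume {M : Fin 2 → Fin 2 → ℝ | ∃ f ∈ F, ∃ z : ℝ, z ≠ 0 ∧ ‖z‖ ≤ 1 ∧
      M = fun i j => z * (f : Matrix (Fin 2) (Fin 2) ℝ) i j} < ⊤

/-- all entries of `A` have absolute value at most `r` -/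
def Bd (r : ℝ) (A : SL2) : Prop := ∀ i j, |A.1 i j| ≤ r

/-- all entries of `A - 1` have absolute value less than `c` -/
def Nr (c : ℝ) (A : SL2) : Prop := ∀ i j, |A.1 i j - (1 : Matrix (Fin 2) (Fin 2) ℝ) i j| < c

/-- cocompact -/
def Coc (Γ : Subgroup SL2) : Prop := ∃ r : ℝ, ∀ g : SL2, ∃ γ ∈ Γ, Bd r (γ * g)

/-- the determinant of two vectors -/
def dt (x y : Fin 2 → ℝ) : ℝ := x 0 * y 1 - x 1 * y 0

/-- `X` is a set of cusp vectors of `Γ` with the complement of the horoballs compact modulo `Γ` -/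
structure Cusp (Γ : Subgroup SL2) (X : Set (Fin 2 → ℝ)) (C κ : ℝ) : Prop where
  pos : 0 < κ
  ne : ∀ x ∈ X, x ≠ 0
  neg : ∀ x ∈ X, -x ∈ X
  smul : ∀ γ ∈ Γ, ∀ x ∈ X, γ.1.mulVec x ∈ X
  sep : ∀ x ∈ X, ∀ y ∈ X, y = x ∨ y = -x ∨ κ ≤ |dt x y|
  min : ∀ g : SL2, ∃ x ∈ X, (g.1.mulVec x) 0 ^ 2 + (g.1.mulVec x) 1 ^ 2 ≤ C
  par : ∀ x ∈ X, ∃ u ∈ Γ, ∃ h : ℝ, h ≠ 0 ∧ ∀ z : Fin 2 → ℝ, u.1.mulVec z = z + (h * dt x z) • x
  fin : ∃ S : Set (Fin 2 → ℝ), S.Finite ∧ S ⊆ X ∧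
    ∀ x ∈ X, ∃ γ ∈ Γ, ∃ s ∈ S, x = γ.1.mulVec s ∨ x = -γ.1.mulVec s

/-- the image in `PSL(2, ℝ)`, as in the frozen statement -/
abbrev Im (Γ : Subgroup SL2) : Type :=
  ↥(Γ.map (QuotientGroup.mk' (Subgroup.center SL2)))

/-- a good action on a tree: no element but `1` fixes an edge pointwise (inversions are allowed),
finite cyclic stabilisers of vertices, finitely many orbits of edges -/
structure Tree (V : Type) [Group V] (W : Type) [MulAction V W] (T : SimpleGraph W) : Prop where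
  tree : T.IsTree
  act : ∀ (g : V) (x y : W), T.Adj x y → T.Adj (g • x) (g • y)
  edge : ∀ (g : V) (x y : W), T.Adj x y → g • x = x → g • y = y → g = 1
  vfin : ∀ x : W, Finite (MulAction.stabilizer V x)
  vcyc : ∀ x : W, IsCyclic (MulAction.stabilizer V x)
  orb : ∃ S : Set (W × W), S.Finite ∧ ∀ x y : W, T.Adj x y → ∃ g : V, (g • x, g • y) ∈ S

/-- (MM) the Margulis lemma -/
def S_MM : Prop :=
  ∃ c : ℝ, 0 < c ∧ c ≤ 1 / 128 ∧ ∀ Γ : Subgroup SL2, Disc Γ → ∀ a ∈ Γ, ∀ b ∈ Γ, Nr c a → Nr c b →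
    a * b = b * a

/-- (VOL) the thick part is compact -/
def S_VOL : Prop :=
  ∀ Γ : Subgroup SL2, Disc Γ → Covol Γ → ∀ c : ℝ, 0 < c → ∃ R : ℝ, ∀ g : SL2,
    (∀ γ ∈ Γ, γ ≠ 1 → ¬ Nr c (g⁻¹ * γ * g)) → ∃ γ ∈ Γ, Bd R (γ * g)

/-- (MOV) moving into the thick part: `g` is thick or some `a ≠ 1` of `Γ` close to `1` at `g` commutes
with a conjugate of an element of a finite set -/
def S_MOV : Prop :=
  ∀ Γ : Subgroup SL2, Disc Γ → Covol Γ → -1 ∈ Γ → ∃ c R : ℝ, 0 < c ∧ c ≤ 1 / 128 ∧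
    (∀ (g : SL2), ∀ a ∈ Γ, ∀ b ∈ Γ, Nr c (g⁻¹ * a * g) → Nr c (g⁻¹ * b * g) → a * b = b * a) ∧
    ∃ S : Set SL2, S.Finite ∧ (∀ b ∈ S, b ∈ Γ ∧ b ≠ 1 ∧ b ≠ -1) ∧
      ∀ g : SL2, (∃ γ ∈ Γ, Bd R (γ * g)) ∨
        ∃ δ ∈ Γ, ∃ b ∈ S, ∃ a ∈ Γ, a ≠ 1 ∧ a * b = b * a ∧ Nr c ((δ * g)⁻¹ * a * (δ * g))

/-- (TT) thick-thin decomposition -/
def S_TT : Prop :=
  ∀ Γ : Subgroup SL2, Disc Γ → Covol Γ → -1 ∈ Γ → Coc Γ ∨ ∃ X C κ, Cusp Γ X C κ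

/-- (TR) the tree of the Delaunay cells -/
def S_TR : Prop :=
  ∀ (Γ : Subgroup SL2) (X : Set (Fin 2 → ℝ)) (C κ : ℝ), Disc Γ → -1 ∈ Γ → Cusp Γ X C κ →
    ∃ (W : Type) (_ : MulAction (Im Γ) W) (T : SimpleGraph W), Tree (Im Γ) W T

/-- (FP) free products from trees (`m i = 0`: infinite cyclic) -/
def S_FP : Prop :=
  ∀ (V : Type) [Group V] (W : Type) [MulAction V W] (T : SimpleGraph W), Tree V W T →
    ∃ (n : ℕ) (m : Fin n → ℕ), Nonempty (V ≃* Monoid.CoprodI fun i => Multiplicative (ZMod (m i)))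

end Pool.Agent.Nc
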