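import Pool.Agent.Lib.MP_305fdd_al.Nc.Defs
import Pool.Agent.Lib.MP_305fdd_al.To.F.F5

/-!
# MP_305fdd_al, block NC: `S_FP`, from `ToF.free_prod_of_tree`
-/

set_option autoImplicit false

namespace Pool.Agent.Nc

theorem p_FP : S_FP := by
  intro V _ W _ T h
  obtain ⟨S, hS, hS'⟩ := h.orb
  refine ToF.free_prod_of_tree h.tree h.act h.edge h.vcyc ⟨hS.toFinset, ?_⟩
  intro x y hxy
  obtain ⟨g, hg⟩ := hS' x y hxy
  refine ⟨g⁻¹, (g • x, g • y), hS.mem_toFinset.2 hg, Or.inl ⟨?_, ?_⟩⟩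
  · exact inv_smul_smul g x
  · exact inv_smul_smul g y

end Pool.Agent.Nc
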